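import Pool.Agent.Q51.PD.Basic

set_option autoImplicit false

/-!
# Sequences whose restricted partition counts have odd density tending to one half

Sequences are indexed from `0` here: `a 0, a 1, ...` stand for `a_1, a_2, ...`.
For every sequence of positive integers with `a k = 1 + 2^k c_k a_0 ⋯ a_{k-1}` (`c_k ≥ 1`) for all
`k ≥ k₀` (and arbitrary positive initial terms) the gcd is `1` and the odd densities of the restricted
partition functions tend to `1/2`.
-/

namespace Pool.Agent.Results.MP_4155d9_nt.HalfDensity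

open Pool.Agent.Q51.PD Finset Filter Topology PowerSeries

/-- `p a k n`: the number of partitions of `n` into the parts `a 0, ..., a (k-1)` (equal values count
as distinct parts), that is, the number of `x ∈ ℕ^k` with `∑ x_i a_i = n`. -/
noncomputable def p (a : ℕ → ℕ) (k n : ℕ) : ℕ := Set.ncard {x : Fin k → ℕ | ∑ i, x i * a i = n}

/-- the odd density of `f` exists and equals `d` -/
def HasOddDensity (f : ℕ → ℕ) (d : ℝ) : Prop :=
  Tendsto (fun N : ℕ => (((range (N + 1)).filter (fun n => Odd (f n))).card : ℝ) / N) atTop (𝓝 d)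

/-- `a` is a sequence of positive integers with gcd `1` whose odd densities exist and tend to `1/2` -/
def Good (a : ℕ → ℕ) : Prop :=
  (∀ i, 1 ≤ a i) ∧ (∀ d : ℕ, (∀ i, d ∣ a i) → d = 1) ∧
    ∃ δ : ℕ → ℝ, (∀ k, 1 ≤ k → HasOddDensity (p a k) (δ k)) ∧ Tendsto δ atTop (𝓝 (1 / 2))

/-- the explicit family: `a (k+1)`, the `(k+2)`-nd term, is `1 + 2^(k+1) c a_0 ⋯ a_k` with any `c ≥ 1` -/
def Family : Set (ℕ → ℕ) :=
  {a | 1 ≤ a 0 ∧ ∀ k, 1 ≤ k → ∃ c, 1 ≤ c ∧ a k = 1 + 2 ^ k * c * ∏ i ∈ range k, a i}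

/-! ### The partition function satisfies the usual recursion -/

lemma sol_finite {a : ℕ → ℕ} (ha : ∀ i, 1 ≤ a i) (k n : ℕ) :
    {x : Fin k → ℕ | ∑ i, x i * a i = n}.Finite := by
  apply Set.Finite.subset (Set.finite_Iic (fun _ : Fin k => n))
  intro x hx
  rw [Set.mem_Iic]
  intro i
  have h1 : x i * a i ≤ ∑ i, x i * a i :=
    Finset.single_le_sum (f := fun i : Fin k => x i * a i) (fun _ _ => Nat.zero_le _)
      (Finset.mem_univ i)
  have h2 : x i * 1 ≤ x i * a i := Nat.mul_le_mul_left _ (ha i)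
  have h3 : ∑ i, x i * a i = n := hx
  rw [h3] at h1
  show x i ≤ n
  exact (by simpa using h2 : x i ≤ x i * a i).trans h1

lemma p_zero (a : ℕ → ℕ) (n : ℕ) : p a 0 n = if n = 0 then 1 else 0 := by
  unfold p
  split_ifs with h
  · subst h
    have : {x : Fin 0 → ℕ | ∑ i, x i * a i = 0} = {0} := by
      ext x; simp [Subsingleton.elim x 0]
    rw [this, Set.ncard_singleton]
  · have : {x : Fin 0 → ℕ | ∑ i, x i * a i = n} = ∅ := by
      ext x
      simp only [Finset.univ_eq_empty, Finset.sum_empty, Set.mem_ofPred_eq, Set.mem_empty_iff_false,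
        iff_false]
      omega
    rw [this, Set.ncard_empty]

lemma p_lt {a : ℕ → ℕ} (k n : ℕ) (hn : n < a k) : p a (k + 1) n = p a k n := by
  unfold p
  have : {x : Fin (k + 1) → ℕ | ∑ i, x i * a i = n} =
      (fun y : Fin k → ℕ => (Fin.snoc y 0 : Fin (k + 1) → ℕ)) ''
        {x : Fin k → ℕ | ∑ i, x i * a i = n} := by
    ext x
    simp only [Set.mem_ofPred_eq, Set.mem_image]
    constructor
    · intro hx
      rw [Fin.sum_univ_castSucc] at hx
      have h1 : x (Fin.last k) = 0 := by
        by_contra h2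
        have h3 : 1 * a k ≤ x (Fin.last k) * a (Fin.last k) := by
          rw [Fin.val_last]
          exact Nat.mul_le_mul_right _ (Nat.one_le_iff_ne_zero.2 h2)
        omega
      refine ⟨Fin.init x, ?_, ?_⟩
      · rw [h1] at hx
        simpa [Fin.init] using hx
      · rw [← h1]; exact Fin.snoc_init_self x
    · rintro ⟨y, hy, rfl⟩
      rw [Fin.sum_univ_castSucc]
      simpa using hy
  rw [this, Set.ncard_image_of_injective]
  intro y z hyz
  have := congrArg (fun f : Fin (k + 1) → ℕ => (Fin.init f : Fin k → ℕ)) hyz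
  simpa using this

lemma p_add {a : ℕ → ℕ} (ha : ∀ i, 1 ≤ a i) (k n : ℕ) :
    p a (k + 1) (n + a k) = p a (k + 1) n + p a k (n + a k) := by
  unfold p
  have hset : {x : Fin (k + 1) → ℕ | ∑ i, x i * a i = n + a k} =
      (fun x : Fin (k + 1) → ℕ => x + Pi.single (Fin.last k) 1) ''
          {x : Fin (k + 1) → ℕ | ∑ i, x i * a i = n} ∪
      (fun y : Fin k → ℕ => (Fin.snoc y 0 : Fin (k + 1) → ℕ)) ''
        {x : Fin k → ℕ | ∑ i, x i * a i = n + a k} := by
    ext x
    simp only [Set.mem_ofPred_eq, Set.mem_union, Set.mem_image]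
    constructor
    · intro hx
      rcases Nat.eq_zero_or_pos (x (Fin.last k)) with h1 | h1
      · right
        rw [Fin.sum_univ_castSucc] at hx
        refine ⟨Fin.init x, ?_, ?_⟩
        · rw [h1] at hx
          simpa [Fin.init] using hx
        · rw [← h1]; exact Fin.snoc_init_self x
      · left
        refine ⟨x - Pi.single (Fin.last k) 1, ?_, ?_⟩
        · have h2 : ∑ i, (x - Pi.single (Fin.last k) 1 : Fin (k + 1) → ℕ) i * a i + a k =
              ∑ i, x i * a i := by
            rw [Fin.sum_univ_castSucc, Fin.sum_univ_castSucc (fun i => x i * a i)]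
            have h3 : ∀ i : Fin k, (x - Pi.single (Fin.last k) 1 : Fin (k + 1) → ℕ) i.castSucc =
                x i.castSucc := by
              intro i
              simp [Pi.single_apply, Fin.castSucc_ne_last]
            have h4 : (x - Pi.single (Fin.last k) 1 : Fin (k + 1) → ℕ) (Fin.last k) =
                x (Fin.last k) - 1 := by
              simp
            simp only [h3, h4, Fin.val_last]
            obtain ⟨z, hz⟩ : ∃ z, x (Fin.last k) = z + 1 := ⟨x (Fin.last k) - 1, by omega⟩
            rw [hz, Nat.add_sub_cancel]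
            ring
          omega
        · funext i
          simp only [Pi.add_apply, Pi.sub_apply]
          by_cases hi : i = Fin.last k
          · subst hi; simp; omega
          · simp [hi]
    · rintro (⟨y, hy, rfl⟩ | ⟨y, hy, rfl⟩)
      · simp only [Pi.add_apply, add_mul, Finset.sum_add_distrib, hy]
        rw [Finset.sum_eq_single (Fin.last k)]
        · simp
        · intro i _ hi
          simp [hi]
        · simp
      · rw [Fin.sum_univ_castSucc]
        simpa using hy
  rw [hset, Set.ncard_union_eq _ ((sol_finite ha _ _).image _) ((sol_finite ha _ _).image _)]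
  · congr 1
    · rw [Set.ncard_image_of_injective]
      intro y z hyz
      exact add_right_cancel hyz
    · rw [Set.ncard_image_of_injective]
      intro y z hyz
      have := congrArg (fun f : Fin (k + 1) → ℕ => (Fin.init f : Fin k → ℕ)) hyz
      simpa using this
  · rw [Set.disjoint_left]
    rintro _ ⟨y, _, rfl⟩ ⟨z, _, hz⟩
    have := congrFun hz (Fin.last k)
    simp at this

lemma p_cast {a : ℕ → ℕ} (ha : ∀ i, 1 ≤ a i) (k : ℕ) :
    ∀ n, ((p a k n : ℕ) : ZMod 2) = coeff n (P a k 0) := by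
  induction k with
  | zero =>
    intro n
    rw [p_zero]
    simp only [P, Finset.range_zero, Finset.prod_empty, pow_zero, mul_one, coeff_one]
    split_ifs <;> simp
  | succ k ih =>
    intro n
    rw [P_succ_left]
    induction n using Nat.strong_induction_on with
    | _ n ihn =>
      rcases Nat.lt_or_ge n (a k) with h | h
      · rw [p_lt k n h, coeff_gs_lt (ha k) _ h, ih]
      · obtain ⟨m, rfl⟩ : ∃ m, n = m + a k := ⟨n - a k, by omega⟩
        rw [p_add ha, coeff_gs_add (ha k), Nat.cast_add, ih,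
          ihn m (by have := ha k; omega)]

/-! ### Densities -/

lemma tendsto_of_close {x : ℕ → ℝ} {d C : ℝ} (h : ∀ N : ℕ, |x N - N * d| ≤ C) :
    Tendsto (fun N : ℕ => x N / N) atTop (𝓝 d) := by
  rw [tendsto_iff_norm_sub_tendsto_zero]
  have h0 : Tendsto (fun N : ℕ => C / (N : ℝ)) atTop (𝓝 0) :=
    tendsto_const_div_atTop_nhds_zero_nat C
  refine squeeze_zero' (Eventually.of_forall fun _ => norm_nonneg _) ?_ h0
  filter_upwards [eventually_gt_atTop 0] with N hN
  have hN0 : (0 : ℝ) < N := by exact_mod_cast hN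
  rw [Real.norm_eq_abs, show x N / N - d = (x N - N * d) / N by field_simp, abs_div,
    abs_of_pos hN0]
  exact div_le_div_of_nonneg_right (h N) hN0.le

lemma hasOddDensity_of_mean {f : ℕ → ℕ} {E : ℝ}
    (h : HasMean (fun n => sg ((f n : ℕ) : ZMod 2)) E) : HasOddDensity f ((1 - E) / 2) := by
  obtain ⟨T, hT, h1⟩ := h.sum
  unfold HasOddDensity
  have hcount : ∀ N : ℕ, (((range N).filter (fun n => Odd (f n))).card : ℝ) =
      (N - ∑ n ∈ range N, sg ((f n : ℕ) : ZMod 2)) / 2 := by
    intro N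
    rw [Finset.card_filter]
    push_cast
    have h2 : ∀ n, (if Odd (f n) then (1 : ℝ) else 0) = (1 - sg ((f n : ℕ) : ZMod 2)) / 2 := by
      intro n
      unfold sg
      split_ifs with h3 h4 h4
      · rw [ZMod.natCast_eq_zero_iff_even] at h4
        exact absurd h4 (Nat.not_even_iff_odd.2 h3)
      · norm_num
      · norm_num
      · rw [ZMod.natCast_eq_zero_iff_even] at h4
        exact absurd (Nat.not_odd_iff_even.1 h3) h4
    rw [Finset.sum_congr rfl (fun n _ => h2 n), ← Finset.sum_div, Finset.sum_sub_distrib]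
    simp
  simp only [hcount]
  -- bounded difference
  have hE : |E| ≤ 1 := by
    have h2 := (h1 1).2
    have h3 : |∑ n ∈ range (1 * T), sg ((f n : ℕ) : ZMod 2)| ≤ T := by
      refine (Finset.abs_sum_le_sum_abs _ _).trans ?_
      simp [sg_abs]
    rw [h2, Nat.cast_one, one_mul, abs_mul, Nat.abs_cast] at h3
    have hT0 : (0 : ℝ) < T := by exact_mod_cast hT
    exact le_of_mul_le_mul_left (by linarith) hT0
  have hbd : ∀ N : ℕ, |∑ n ∈ range N, sg ((f n : ℕ) : ZMod 2) - N * E| ≤ 2 * T := by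
    intro N
    have h2 : N = (N / T) * T + N % T := (Nat.div_add_mod' N T).symm
    have h3 := (h1 (N / T)).2
    have h4 : (N % T : ℕ) < T := Nat.mod_lt _ hT
    set M := N / T
    set r := N % T
    have h5 : |∑ n ∈ range r, sg ((f (M * T + n) : ℕ) : ZMod 2)| ≤ r := by
      refine (Finset.abs_sum_le_sum_abs _ _).trans ?_
      simp [sg_abs]
    rw [h2, Finset.sum_range_add, h3]
    push_cast
    have h6 : (r : ℝ) ≤ T := by exact_mod_cast h4.le
    have h7 : |(r : ℝ) * E| ≤ r := by
      rw [abs_mul, Nat.abs_cast]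
      calc (r : ℝ) * |E| ≤ r * 1 := mul_le_mul_of_nonneg_left hE (Nat.cast_nonneg _)
        _ = r := mul_one _
    calc |(M : ℝ) * T * E + ∑ n ∈ range r, sg ((f (M * T + n) : ℕ) : ZMod 2) - (M * T + r) * E|
        = |∑ n ∈ range r, sg ((f (M * T + n) : ℕ) : ZMod 2) - r * E| := by congr 1; ring
      _ ≤ |∑ n ∈ range r, sg ((f (M * T + n) : ℕ) : ZMod 2)| + |r * E| := abs_sub _ _
      _ ≤ 2 * T := by linarith
  apply tendsto_of_close (C := T + 1)
  intro N
  have h2 := hbd (N + 1)
  push_cast at h2 ⊢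
  have h3 : ((N : ℝ) + 1 - ∑ n ∈ range (N + 1), sg ((f n : ℕ) : ZMod 2)) / 2 - N * ((1 - E) / 2) =
      (1 - E) / 2 - (∑ n ∈ range (N + 1), sg ((f n : ℕ) : ZMod 2) - (N + 1) * E) / 2 := by ring
  rw [h3]
  have h4 : |(1 - E) / 2| ≤ 1 := by
    have := abs_le.1 hE
    rw [abs_le]; constructor <;> linarith
  calc |(1 - E) / 2 - (∑ n ∈ range (N + 1), sg ((f n : ℕ) : ZMod 2) - (N + 1) * E) / 2|
      ≤ |(1 - E) / 2| + |(∑ n ∈ range (N + 1), sg ((f n : ℕ) : ZMod 2) - (N + 1) * E) / 2| :=
        abs_sub _ _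
    _ ≤ T + 1 := by
      have h5 : |(∑ n ∈ range (N + 1), sg ((f n : ℕ) : ZMod 2) - (N + 1) * E) / 2| ≤ T := by
        rw [abs_div, abs_two]
        linarith
      linarith

lemma small_pow (k : ℕ) (hk : 84 ≤ k) : k ≤ 2 ^ (k / 12) := by
  have h1 : ∀ n, 7 ≤ n → 12 * (n + 1) ≤ 2 ^ n := by
    intro n hn
    induction n, hn using Nat.le_induction with
    | base => norm_num
    | succ n hn ih => rw [pow_succ]; omega
  have := h1 (k / 12) (by omega)
  omega

theorem good_of_dvd {a : ℕ → ℕ} (ha : ∀ i, 1 ≤ a i) {k₀ : ℕ}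
    (hd : ∀ k, k₀ ≤ k → 2 ^ k * ∏ i ∈ range k, a i ∣ a k - 1)
    (h1 : ∀ k, k₀ ≤ k → 1 < a k) : Good a := by
  refine ⟨ha, ?_, fun k => (1 - e a k 0) / 2, ?_, ?_⟩
  · intro d hdd
    have h2 : d ∣ a (k₀ + 1) - 1 := by
      refine ((hdd 0).trans ?_).trans (hd (k₀ + 1) (by omega))
      exact (Finset.dvd_prod_of_mem a (Finset.mem_range.2 (by omega))).trans (Dvd.intro_left _ rfl)
    have h3 := hdd (k₀ + 1)
    have h4 : d ∣ 1 := by
      have h5 := Nat.dvd_sub h3 h2
      have h6 := ha (k₀ + 1)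
      rwa [show a (k₀ + 1) - (a (k₀ + 1) - 1) = 1 by omega] at h5
    exact Nat.dvd_one.1 h4
  · intro k hk
    apply hasOddDensity_of_mean
    simp only [p_cast ha]
    exact hasMean_e ha (by omega)
  · have h0 : Tendsto (fun k => e a k 0) atTop (𝓝 0) := by
      rw [tendsto_zero_iff_abs_tendsto_zero]
      have h2 : Tendsto (fun k : ℕ => (4 / 5 : ℝ) ^ (k / 2)) atTop (𝓝 0) :=
        (tendsto_pow_atTop_nhds_zero_of_lt_one (by norm_num) (by norm_num)).comp
          (Nat.tendsto_div_const_atTop (by norm_num))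
      refine squeeze_zero' (Eventually.of_forall fun _ => abs_nonneg _) ?_ h2
      filter_upwards [eventually_ge_atTop (max 84 (12 * k₀))] with k hk
      have hk1 : 84 ≤ k := (le_max_left _ _).trans hk
      have hk2 : 12 * k₀ ≤ k := (le_max_right _ _).trans hk
      have h3 := abs_e_small ha hd h1 (k := k) (K := k / 12) (by omega) (by omega)
        (small_pow k hk1) (by omega)
      simp only [Function.comp]
      refine h3.trans ?_
      exact pow_le_pow_of_le_one (by norm_num) (by norm_num) (by omega)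
    have h2 := (h0.const_sub 1).div_const 2
    simpa using h2

theorem result :
    Family.Infinite ∧ (∀ a ∈ Family, Good a) ∧
    (∀ a : ℕ → ℕ, (∀ i, 1 ≤ a i) → (∃ k₀, ∀ k, k₀ ≤ k → 1 < a k ∧
      2 ^ k * ∏ i ∈ range k, a i ∣ a k - 1) → Good a) := by
  have hgen : ∀ a : ℕ → ℕ, (∀ i, 1 ≤ a i) → (∃ k₀, ∀ k, k₀ ≤ k → 1 < a k ∧
      2 ^ k * ∏ i ∈ range k, a i ∣ a k - 1) → Good a := by
    rintro a ha ⟨k₀, hk⟩
    exact good_of_dvd ha (fun k hk' => (hk k hk').2) (fun k hk' => (hk k hk').1)
  refine ⟨?_, ?_, hgen⟩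
  · -- infinitely many members: arbitrary first term
    have hex : ∀ N : ℕ, ∃ a ∈ Family, a 0 = N + 1 := by
      intro N
      let b : ℕ → ℕ × ℕ := fun n => Nat.rec (N + 1, N + 1)
        (fun k q => (1 + 2 ^ (k + 1) * 1 * q.2, q.2 * (1 + 2 ^ (k + 1) * 1 * q.2))) n
      have hb : ∀ k, (b k).2 = ∏ i ∈ range (k + 1), (b i).1 := by
        intro k
        induction k with
        | zero => simp [b]
        | succ k ih =>
          rw [Finset.prod_range_succ, ← ih]
      refine ⟨fun n => (b n).1, ⟨by simp [b], ?_⟩, rfl⟩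
      intro k hk
      obtain ⟨j, rfl⟩ : ∃ j, k = j + 1 := ⟨k - 1, by omega⟩
      refine ⟨1, le_rfl, ?_⟩
      dsimp only
      rw [← hb]
    choose a ha1 ha2 using hex
    refine Set.infinite_of_injective_forall_mem (f := a) ?_ ha1
    intro x y hxy
    have h1 := ha2 x
    have h2 := ha2 y
    rw [hxy, h2] at h1
    omega
  · rintro a ⟨h0, h1⟩
    have ha : ∀ i, 1 ≤ a i := by
      intro i
      rcases Nat.eq_zero_or_pos i with rfl | hi
      · exact h0
      · obtain ⟨c, _, hc⟩ := h1 i hi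
        rw [hc]; omega
    refine hgen a ha ⟨1, fun k hk => ?_⟩
    obtain ⟨c, hc1, hc⟩ := h1 k hk
    have hpos := prod_pos' ha k
    have h2 : 0 < 2 ^ k * c * ∏ i ∈ range k, a i :=
      Nat.mul_pos (Nat.mul_pos (by positivity) (by omega)) hpos
    refine ⟨by omega, ?_⟩
    rw [hc, Nat.add_sub_cancel_left]
    exact ⟨c, by ring⟩

end Pool.Agent.Results.MP_4155d9_nt.HalfDensity
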